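import Pool.Agent.X172.GR.Stm

/-! Index lemmas for the part COM of the project GR. -/

namespace Pool.Agent.X118.GR

open Pool.Agent.X172.GR

variable {n : ℕ} {T : ℕ → Fin 6}

theorem per_mul (hT : Ty n T) (i c : ℕ) : T (i + n * c) = T i := by
  induction c with
  | zero => simp
  | succ c ih => rw [Nat.mul_succ, ← Nat.add_assoc, hT.per, ih]

theorem per_mod (hT : Ty n T) {i k : ℕ} (h : i % n = k % n) : T i = T k := by
  have h1 := per_mul hT (i % n) (i / n)
  have h2 := per_mul hT (k % n) (k / n)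
  rw [Nat.mod_add_div] at h1 h2
  rw [h1, h2, h]

/-- two readings of a word of length `p > n / 2` start at the same index modulo `n` -/
theorem same_start (hT : Ty n T) {p i r : ℕ} (hpn : p < n) (hp : n < 2 * p)
    (h3 : ∀ j, j < p → T (i + j) = T (r + j)) : i % n = r % n := by
  by_contra hne
  -- choose `δ` with `r ≡ i + δ`
  obtain ⟨δ, hδ0, hδn, hδ⟩ : ∃ δ, 0 < δ ∧ δ < n ∧ (i + δ) % n = r % n := by
    have hn : 0 < n := by omega
    refine ⟨(r + (n - i % n)) % n, ?_, Nat.mod_lt _ hn, ?_⟩
    · rcases Nat.eq_zero_or_pos ((r + (n - i % n)) % n) with h | h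
      · exfalso; apply hne
        have hi := Nat.mod_lt i hn
        have h5 : (r % n + (n - i % n)) % n = 0 := by rw [Nat.mod_add_mod]; exact h
        have hr := Nat.mod_lt r hn
        by_cases h6 : r % n + (n - i % n) < n
        · rw [Nat.mod_eq_of_lt h6] at h5; omega
        · rw [Nat.mod_eq_sub_mod (by omega), Nat.mod_eq_of_lt (by omega)] at h5; omega
      · exact h
    · have hi := Nat.mod_lt i hn
      rw [Nat.add_mod_mod]
      have : i + (r + (n - i % n)) = r + n * (i / n + 1) := by
        have := Nat.mod_add_div i n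
        rw [Nat.mul_add, Nat.mul_one]; omega
      rw [this, Nat.add_mul_mod_self_left]
  have key : ∀ j, j < p → T (i + j) = T (i + δ + j) := by
    intro j hj
    rw [h3 j hj]
    exact per_mod hT (by rw [Nat.add_mod, ← hδ, ← Nat.add_mod])
  have hnd : ¬ n ∣ δ := fun h => by have := Nat.le_of_dvd hδ0 h; omega
  obtain ⟨j, hj, hj2⟩ := hT.sqf i δ hδ0 hnd
  have hδp : p < δ := by
    by_contra h
    exact hj2 (key j (by omega))
  have hnd2 : ¬ n ∣ n - δ := fun h => by have := Nat.le_of_dvd (by omega) h; omega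
  obtain ⟨l, hl, hl2⟩ := hT.sqf (i + δ) (n - δ) (by omega) hnd2
  apply hl2
  rw [← key l (by omega), show i + δ + (n - δ) + l = i + l + n by omega, hT.per]

/-- the last case of COM -/
theorem com_arith (hT : Ty n T) {p i r : ℕ} (hp0 : 0 < p) (hpn : p < n) (hr : n - p ≤ r)
    (h1 : ∀ j, j < n - p → T (i + j) = T (i + p + j))
    (h2 : ∀ j, j < n - p → T (r - (n - p) + j) = T (r - (n - p) + p + j))
    (h3 : ∀ j, j < p → T (i + j) = T (r + j)) : False := by
  have hnd : ¬ n ∣ p := fun h => by have := Nat.le_of_dvd hp0 h; omega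
  obtain ⟨j, hj, hj2⟩ := hT.sqf i p hp0 hnd
  have hp : n < 2 * p := by
    by_contra h
    exact hj2 (h1 j (by omega))
  have hs := same_start hT hpn hp h3
  have hnd2 : ¬ n ∣ n - p := fun h => by have := Nat.le_of_dvd (by omega) h; omega
  obtain ⟨l, hl, hl2⟩ := hT.sqf (r - (n - p) + p) (n - p) (by omega) hnd2
  apply hl2
  rw [← h2 l hl, show r - (n - p) + p + (n - p) + l = r - (n - p) + l + n by omega, hT.per]

end Pool.Agent.X118.GR
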