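import Pool.Agent.X118.GR.Arith

/-! The short case of the part COM of the project GR. -/

namespace Pool.Agent.X118.GR

open Pool.Agent.X172.GR

variable {n : ℕ} {T : ℕ → Fin 6}

theorem Rd_append {i : ℕ} {u w : List Ltr} :
    Rd T i (u ++ w) ↔ Rd T i u ∧ Rd T (i + u.length) w := by
  induction u generalizing i with
  | nil => simp [Rd]
  | cons a u ih =>
    simp only [List.cons_append, Rd, ih, List.length_cons]
    rw [show i + (u.length + 1) = i + 1 + u.length by omega]
    tauto

theorem Rd_get {i j : ℕ} {u : List Ltr} (h : Rd T i u) (hj : j < u.length) :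
    (u[j]).1 = T (i + j) := by
  induction u generalizing i j with
  | nil => simp at hj
  | cons a u ih =>
    cases j with
    | zero => simpa using h.1
    | succ j =>
      have := ih h.2 (by simpa using hj)
      simp only [List.getElem_cons_succ, this]
      congr 1; omega

/-- a word readable from two places: the types agree -/
theorem Rd_two {i k : ℕ} {u : List Ltr} (h : Rd T i u) (h' : Rd T k u) :
    ∀ j, j < u.length → T (i + j) = T (k + j) := fun j hj => by
  rw [← Rd_get h hj, ← Rd_get h' hj]

/-- no readable word begins with the square of a word whose length is not divisible by `n` -/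
theorem no_square (hT : Ty n T) {i : ℕ} {s w : List Ltr} (hs : s ≠ []) (hd : ¬ n ∣ s.length)
    (h : Rd T i (s ++ (s ++ w))) : False := by
  have h1 := Rd_append.1 h
  have h2 := (Rd_append.1 h1.2).1
  obtain ⟨j, hj, hj2⟩ := hT.sqf i s.length (List.length_pos_iff.2 hs) hd
  exact hj2 (Rd_two h1.1 h2 j hj)

theorem not_dvd_of_lt {p : ℕ} (hp : 0 < p) (hpn : p < n) : ¬ n ∣ p :=
  fun h => by have := Nat.le_of_dvd hp h; omega

/-- the case of short words of COM, with `|s| ≤ |t|` -/
theorem short_case (hT : Ty n T) {s t : List Ltr} (hs : s ≠ []) (hlen : s.length ≤ t.length)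
    (htn : t.length < n) (ht : Readable T t) (h : s ++ t = t ++ s) : s = t := by
  obtain ⟨i, hi⟩ := ht
  have hpre : s <+: t := by
    have h1 : s <+: t ++ s := ⟨t, h⟩
    exact List.prefix_of_prefix_length_le h1 (List.prefix_append t s) hlen
  obtain ⟨t', rfl⟩ := hpre
  by_cases ht' : t' = []
  · simp [ht']
  exfalso
  have h2 : s ++ t' = t' ++ s := by
    have := h
    simp only [List.append_assoc, List.append_cancel_left_eq] at this
    exact this
  have hs0 := List.length_pos_iff.2 hs
  have ht0 := List.length_pos_iff.2 ht'
  rw [List.length_append] at htn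
  rcases le_total s.length t'.length with hle | hle
  · have hp2 : s <+: t' := by
      have h1 : s <+: t' ++ s := ⟨t', h2⟩
      exact List.prefix_of_prefix_length_le h1 (List.prefix_append t' s) hle
    obtain ⟨t'', rfl⟩ := hp2
    exact no_square hT hs (not_dvd_of_lt hs0 (by omega)) hi
  · have hp2 : t' <+: s := by
      have h1 : t' <+: s ++ t' := ⟨s, h2.symm⟩
      exact List.prefix_of_prefix_length_le h1 (List.prefix_append s t') hle
    obtain ⟨s', rfl⟩ := hp2
    rw [h2] at hi
    exact no_square hT ht' (not_dvd_of_lt ht0 (by omega)) hi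

end Pool.Agent.X118.GR
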